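import Pool.Agent.Helper42.Haag.Defs

set_option autoImplicit false

/-!
# S3: the spectral functional on the torus

A representation of `ℤ²` gives, by the joint continuous functional calculus of two commuting
unitaries (Gelfand duality), a star homomorphism `C(𝕋²) → B(H)`; vector states give positive
functionals.
-/

namespace Pool.Agent.Helper54.HG

open Matrix Pool.Agent.Helper42.Haag

open scoped ComplexConjugate

section Joint

variable {B : Type*} [CStarAlgebra B]

/-- first coordinate on the torus -/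
noncomputable def zc1 : C(Circle × Circle, ℂ) := ⟨fun p => (p.1 : ℂ), by fun_prop⟩

/-- second coordinate on the torus -/
noncomputable def zc2 : C(Circle × Circle, ℂ) := ⟨fun p => (p.2 : ℂ), by fun_prop⟩

/-- Joint continuous functional calculus for two commuting unitaries. -/
theorem exists_joint (u v : unitary B) (huv : u * v = v * u) :
    ∃ Φ : C(Circle × Circle, ℂ) →⋆ₐ[ℂ] B, Φ zc1 = u ∧ Φ zc2 = v := by
  classical
  -- the set of generators, commuting and star closed
  have huv' : (u : B) * v = v * u := congrArg Subtype.val huv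
  have h1 : (u : B) * star (v : B) = star (v : B) * u := by
    have : u * v⁻¹ = v⁻¹ * u := by
      rw [eq_inv_mul_iff_mul_eq, ← mul_assoc, ← huv, mul_assoc, mul_inv_cancel, mul_one]
    exact congrArg Subtype.val this
  have h2 : (v : B) * star (u : B) = star (u : B) * v := by
    have : v * u⁻¹ = u⁻¹ * v := by
      rw [eq_inv_mul_iff_mul_eq, ← mul_assoc, huv, mul_assoc, mul_inv_cancel, mul_one]
    exact congrArg Subtype.val this
  have huu : (u : B) * star (u : B) = star (u : B) * u := by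
    rw [Unitary.mul_star_self_of_mem u.2, Unitary.star_mul_self_of_mem u.2]
  have hvv : (v : B) * star (v : B) = star (v : B) * v := by
    rw [Unitary.mul_star_self_of_mem v.2, Unitary.star_mul_self_of_mem v.2]
  set s : Set B := {(u : B), (v : B)} with hs
  let C1 : StarSubalgebra ℂ B := StarSubalgebra.centralizer ℂ s
  let S : StarSubalgebra ℂ B := StarSubalgebra.centralizer ℂ (C1 : Set B)
  have hsC1 : s ⊆ (C1 : Set B) := by
    intro x hx
    rw [SetLike.mem_coe, StarSubalgebra.mem_centralizer_iff]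
    intro g hg
    simp only [hs, Set.mem_insert_iff, Set.mem_singleton_iff] at hx hg
    rcases hx with rfl | rfl <;> rcases hg with rfl | rfl
    · exact ⟨rfl, huu.symm⟩
    · exact ⟨huv'.symm, h1.symm⟩
    · exact ⟨huv', h2.symm⟩
    · exact ⟨rfl, hvv.symm⟩
  have hSC1 : S ≤ C1 := StarSubalgebra.centralizer_le ℂ _ _ hsC1
  have hcomm : ∀ x y : S, x * y = y * x := by
    rintro ⟨x, hx⟩ ⟨y, hy⟩
    have hx' : x ∈ C1 := hSC1 hx
    have := (StarSubalgebra.mem_centralizer_iff (R := ℂ)).1 hy x hx'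
    exact Subtype.ext this.1
  have hsS : s ⊆ (S : Set B) := by
    intro x hx
    rw [SetLike.mem_coe, StarSubalgebra.mem_centralizer_iff]
    intro g hg
    have hg' := (StarSubalgebra.mem_centralizer_iff (R := ℂ)).1 hg x hx
    refine ⟨hg'.1.symm, ?_⟩
    have := congrArg star hg'.2
    simpa using this
  have hclosed : IsClosed (S : Set B) := by
    rw [StarSubalgebra.coe_centralizer]
    exact Set.isClosed_centralizer _
  let iC : CStarAlgebra S := StarSubalgebra.cstarAlgebra S (h_closed := hclosed)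
  let iCC : CommCStarAlgebra S := { iC with mul_comm := hcomm }
  let u' : S := ⟨u, hsS (by simp [hs])⟩
  let v' : S := ⟨v, hsS (by simp [hs])⟩
  have hcirc : ∀ (w : S), star w * w = 1 → ∀ χ : WeakDual.characterSpace ℂ S,
      (χ w) ∈ Submonoid.unitSphere ℂ := by
    intro w hw χ
    have h3 : star (χ w) * χ w = 1 := by
      rw [← map_star, ← map_mul, hw, map_one]
    have h4 : ‖χ w‖ ^ 2 = 1 := by
      have := congrArg norm h3
      rw [norm_mul, norm_star, norm_one] at this
      nlinarith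
    have h5 : ‖χ w‖ = 1 := by
      have h6 := norm_nonneg (χ w)
      nlinarith
    simpa [Submonoid.unitSphere] using h5
  have hu' : star u' * u' = 1 := Subtype.ext (Unitary.star_mul_self_of_mem u.2)
  have hv' : star v' * v' = 1 := Subtype.ext (Unitary.star_mul_self_of_mem v.2)
  let j : C(WeakDual.characterSpace ℂ S, Circle × Circle) :=
    ⟨fun χ => (⟨χ u', hcirc u' hu' χ⟩, ⟨χ v', hcirc v' hv' χ⟩), by
      have hev : ∀ w : S, Continuous fun χ : WeakDual.characterSpace ℂ S => χ w := fun w =>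
        (WeakDual.eval_continuous w).comp continuous_subtype_val
      exact ((hev u').subtype_mk _).prodMk ((hev v').subtype_mk _)⟩
  let Ψ : C(Circle × Circle, ℂ) →⋆ₐ[ℂ] C(WeakDual.characterSpace ℂ S, ℂ) :=
    ContinuousMap.compStarAlgHom' ℂ ℂ j
  let Γ : C(WeakDual.characterSpace ℂ S, ℂ) →⋆ₐ[ℂ] S := ((gelfandStarTransform S).symm : _ →⋆ₐ[ℂ] S)
  refine ⟨S.subtype.comp (Γ.comp Ψ), ?_, ?_⟩
  · have : Γ (Ψ zc1) = u' := by
      show (gelfandStarTransform S).symm (Ψ zc1) = u'
      rw [StarAlgEquiv.symm_apply_eq]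
      ext χ
      rfl
    show ((Γ (Ψ zc1) : S) : B) = u
    rw [this]
  · have : Γ (Ψ zc2) = v' := by
      show (gelfandStarTransform S).symm (Ψ zc2) = v'
      rw [StarAlgEquiv.symm_apply_eq]
      ext χ
      rfl
    show ((Γ (Ψ zc2) : S) : B) = v
    rw [this]

/-- A star homomorphism from `C(𝕋²)` is determined by its values on the coordinates. -/
theorem joint_unique (Φ Ψ : C(Circle × Circle, ℂ) →⋆ₐ[ℂ] B) (h1 : Φ zc1 = Ψ zc1)
    (h2 : Φ zc2 = Ψ zc2) : Φ = Ψ := by
  have hc : ∀ Θ : C(Circle × Circle, ℂ) →⋆ₐ[ℂ] B, Continuous Θ := fun Θ =>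
    AddMonoidHomClass.continuous_of_bound Θ 1 (fun x => by
      simpa using NonUnitalStarAlgHom.norm_apply_le Θ x)
  let A : StarSubalgebra ℂ C(Circle × Circle, ℂ) := StarAlgebra.adjoin ℂ {zc1, zc2}
  have hsep : A.SeparatesPoints := by
    rintro ⟨a, b⟩ ⟨c, d⟩ hne
    by_cases hac : a = c
    · have hbd : b ≠ d := by
        rintro rfl
        exact hne (by rw [hac])
      refine ⟨zc2, ⟨zc2, StarAlgebra.subset_adjoin ℂ _ (by simp), rfl⟩, ?_⟩
      intro h
      exact hbd (Circle.ext h)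
    · refine ⟨zc1, ⟨zc1, StarAlgebra.subset_adjoin ℂ _ (by simp), rfl⟩, ?_⟩
      intro h
      exact hac (Circle.ext h)
  have htop := ContinuousMap.starSubalgebra_topologicalClosure_eq_top_of_separatesPoints A hsep
  have hle : A ≤ StarAlgHom.equalizer Φ Ψ := by
    refine StarAlgebra.adjoin_le ?_
    intro x hx
    simp only [Set.mem_insert_iff, Set.mem_singleton_iff] at hx
    rcases hx with rfl | rfl
    · exact h1
    · exact h2
  have hcl : IsClosed (StarAlgHom.equalizer Φ Ψ : Set C(Circle × Circle, ℂ)) :=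
    isClosed_eq (hc Φ) (hc Ψ)
  have h3 := StarSubalgebra.topologicalClosure_minimal hle hcl
  rw [htop] at h3
  exact StarAlgHom.ext fun f => h3 (StarSubalgebra.mem_top : f ∈ (⊤ : StarSubalgebra ℂ _))

end Joint

/-- the character of the torus -/
noncomputable def ech (x : Fin 2 → ℤ) : C(Circle × Circle, ℂ) :=
  ⟨fun p => ((p.1 ^ (x 0) * p.2 ^ (x 1) : Circle) : ℂ),
    continuous_subtype_val.comp (by fun_prop)⟩

/-- real functions as complex functions -/
noncomputable def toC : C(Circle × Circle, ℝ) →ₗ[ℝ] C(Circle × Circle, ℂ) where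
  toFun f := ⟨fun p => (f p : ℂ), by fun_prop⟩
  map_add' f g := by ext p; simp
  map_smul' c f := by ext p; simp

@[simp] theorem toC_apply (f : C(Circle × Circle, ℝ)) (p : Circle × Circle) :
    toC f p = (f p : ℂ) := rfl

@[simp] theorem ech_apply (x : Fin 2 → ℤ) (p : Circle × Circle) :
    ech x p = ((p.1 ^ (x 0) * p.2 ^ (x 1) : Circle) : ℂ) := rfl

@[simp] theorem rechar_apply (x : Fin 2 → ℤ) (p : Circle × Circle) :
    rechar x p = ((p.1 ^ (x 0) * p.2 ^ (x 1) : Circle) : ℂ).re := rfl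

theorem toC_rechar (x : Fin 2 → ℤ) : toC (rechar x) = (1 / 2 : ℂ) • (ech x + star (ech x)) := by
  ext p
  simp only [toC_apply, rechar_apply, ContinuousMap.smul_apply, ContinuousMap.add_apply,
    ContinuousMap.star_apply, ech_apply, smul_eq_mul]
  rw [Complex.re_eq_add_conj]
  simp only [starRingEnd_apply]
  ring

theorem ech_add (x y : Fin 2 → ℤ) : ech (x + y) = ech x * ech y := by
  ext p
  have h : p.1 ^ (x 0 + y 0) * p.2 ^ (x 1 + y 1) =
      (p.1 ^ (x 0) * p.2 ^ (x 1)) * (p.1 ^ (y 0) * p.2 ^ (y 1)) := by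
    rw [_root_.zpow_add, _root_.zpow_add]
    exact mul_mul_mul_comm _ _ _ _
  simp only [ech_apply, Pi.add_apply, ContinuousMap.mul_apply]
  rw [h, Circle.coe_mul]

theorem ech_neg (x : Fin 2 → ℤ) : ech (-x) = star (ech x) := by
  ext p
  have h : p.1 ^ (-x 0) * p.2 ^ (-x 1) = (p.1 ^ (x 0) * p.2 ^ (x 1))⁻¹ := by
    rw [_root_.zpow_neg, _root_.zpow_neg, mul_inv]
  simp only [ech_apply, Pi.neg_apply, ContinuousMap.star_apply]
  rw [h, Circle.coe_inv_eq_conj]
  rfl

theorem ech_zero : ech 0 = 1 := by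
  ext p
  simp

theorem ech_single0 : ech (Pi.single 0 1) = zc1 := by
  ext p
  simp [zc1]

theorem ech_single1 : ech (Pi.single 1 1) = zc2 := by
  ext p
  simp [zc2]

section Main

variable {G : Type} [Group G] {H : Type} [NormedAddCommGroup H] [InnerProductSpace ℂ H]
  [CompleteSpace H]

theorem phi_ech (π : G →* unitary (H →L[ℂ] H)) (ι : (Fin 2 → ℤ) → G)
    (hι : ∀ x y, ι (x + y) = ι x * ι y)
    (Φ : C(Circle × Circle, ℂ) →⋆ₐ[ℂ] (H →L[ℂ] H))
    (h1 : Φ zc1 = (π (ι (Pi.single 0 1)) : H →L[ℂ] H))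
    (h2 : Φ zc2 = (π (ι (Pi.single 1 1)) : H →L[ℂ] H)) (x : Fin 2 → ℤ) :
    Φ (ech x) = (π (ι x) : H →L[ℂ] H) := by
  have h0 : ι 0 = 1 := by
    have := hι 0 0
    rw [add_zero] at this
    exact (mul_left_cancel ((mul_one (ι 0)).trans this)).symm
  have hneg : ∀ y, ι (-y) = (ι y)⁻¹ := by
    intro y
    have := hι (-y) y
    rw [neg_add_cancel, h0] at this
    exact eq_inv_of_mul_eq_one_left this.symm
  let P : AddSubgroup (Fin 2 → ℤ) :=
    { carrier := {y | Φ (ech y) = (π (ι y) : H →L[ℂ] H)}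
      zero_mem' := by
        show Φ (ech 0) = (π (ι 0) : H →L[ℂ] H)
        rw [ech_zero, h0, map_one, map_one]
        rfl
      add_mem' := by
        intro a b (ha : Φ (ech a) = _) (hb : Φ (ech b) = _)
        show Φ (ech (a + b)) = (π (ι (a + b)) : H →L[ℂ] H)
        rw [ech_add, map_mul, ha, hb, hι, map_mul]
        rfl
      neg_mem' := by
        intro a (ha : Φ (ech a) = _)
        show Φ (ech (-a)) = (π (ι (-a)) : H →L[ℂ] H)
        rw [ech_neg, map_star, ha, hneg, map_inv]
        rfl }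
  have hx : x = x 0 • (Pi.single 0 1 : Fin 2 → ℤ) + x 1 • (Pi.single 1 1 : Fin 2 → ℤ) := by
    ext i
    fin_cases i <;> simp
  have hp0 : (Pi.single 0 1 : Fin 2 → ℤ) ∈ P := by
    show Φ (ech _) = _
    rw [ech_single0]
    exact h1
  have hp1 : (Pi.single 1 1 : Fin 2 → ℤ) ∈ P := by
    show Φ (ech _) = _
    rw [ech_single1]
    exact h2
  have hm : x ∈ P := by
    rw [hx]
    exact P.add_mem (P.zsmul_mem hp0 _) (P.zsmul_mem hp1 _)
  exact hm

/-- conjugation by a unitary, as a star homomorphism -/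
noncomputable def conjHom (w : unitary (H →L[ℂ] H)) : (H →L[ℂ] H) →⋆ₐ[ℂ] (H →L[ℂ] H) where
  toFun T := w * T * star (w : H →L[ℂ] H)
  map_one' := by rw [mul_one]; exact Unitary.mul_star_self_of_mem w.2
  map_mul' S T := by
    have h : star (w : H →L[ℂ] H) * w = 1 := Unitary.star_mul_self_of_mem w.2
    calc (w : H →L[ℂ] H) * (S * T) * star (w : H →L[ℂ] H)
        = w * S * 1 * T * star (w : H →L[ℂ] H) := by rw [mul_one]; simp only [mul_assoc]
      _ = w * S * star (w : H →L[ℂ] H) * (w * T * star (w : H →L[ℂ] H)) := by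
          rw [← h]; simp only [mul_assoc]
  map_zero' := by simp
  map_add' S T := by rw [mul_add, add_mul]
  commutes' r := by
    rw [Algebra.algebraMap_eq_smul_one, mul_smul_comm, mul_one, smul_mul_assoc,
      Unitary.mul_star_self_of_mem w.2]
  map_star' T := by simp [mul_assoc]

theorem conjHom_apply (w : unitary (H →L[ℂ] H)) (T : H →L[ℂ] H) :
    conjHom w T = w * T * star (w : H →L[ℂ] H) := rfl

theorem exists_functional {G : Type} [Group G]
    {H : Type} [NormedAddCommGroup H] [InnerProductSpace ℂ H] [CompleteSpace H]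
    (π : G →* unitary (H →L[ℂ] H)) (ξ : H) (hξ : ‖ξ‖ = 1)
    (ι : (Fin 2 → ℤ) → G) (hι : ∀ x y, ι (x + y) = ι x * ι y) :
    ∃ Λ : C(Circle × Circle, ℝ) →ₗ[ℝ] ℝ, (∀ f, 0 ≤ f → 0 ≤ Λ f) ∧ Λ 1 = 1 ∧
      (∀ x, Λ (rechar x) = (inner ℂ ξ ((π (ι x) : H →L[ℂ] H) ξ)).re) ∧
      ∀ (g : G) (A : Matrix (Fin 2) (Fin 2) ℤ), (∀ x, g * ι x * g⁻¹ = ι (A *ᵥ x)) →
        ∀ f : C(Circle × Circle, ℝ),
          |Λ (f.comp (dualMap A)) - Λ f| ≤ 2 * ‖f‖ * ‖(π g : H →L[ℂ] H) ξ - ξ‖ := by
  classical
  obtain ⟨Φ, hΦ1, hΦ2⟩ := exists_joint (π (ι (Pi.single 0 1))) (π (ι (Pi.single 1 1))) (by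
    rw [← map_mul, ← map_mul, ← hι, ← hι, add_comm])
  have hΦ := phi_ech π ι hι Φ hΦ1 hΦ2
  have hnorm : ∀ F, ‖Φ F‖ ≤ ‖F‖ := NonUnitalStarAlgHom.norm_apply_le Φ
  refine ⟨
    { toFun := fun f => (inner ℂ ξ (Φ (toC f) ξ)).re
      map_add' := fun f g => by
        rw [map_add, map_add, _root_.add_apply, inner_add_right, Complex.add_re]
      map_smul' := fun c f => by
        have : toC (c • f) = (c : ℂ) • toC f := by ext p; simp
        rw [this, map_smul, _root_.smul_apply, inner_smul_right]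
        simp }, ?_, ?_, ?_, ?_⟩
  · intro f hf
    show 0 ≤ (inner ℂ ξ (Φ (toC f) ξ)).re
    let s : C(Circle × Circle, ℝ) := ⟨fun p => Real.sqrt (f p), by fun_prop⟩
    have hs : toC f = star (toC s) * toC s := by
      ext p
      simp only [toC_apply, ContinuousMap.mul_apply, ContinuousMap.star_apply]
      show (f p : ℂ) = star ((Real.sqrt (f p) : ℝ) : ℂ) * ((Real.sqrt (f p) : ℝ) : ℂ)
      have hfp : 0 ≤ f p := hf p
      rw [← starRingEnd_apply, Complex.conj_ofReal, ← Complex.ofReal_mul,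
        Real.mul_self_sqrt hfp]
    rw [hs, map_mul, map_star]
    show 0 ≤ (inner ℂ ξ (star (Φ (toC s)) (Φ (toC s) ξ))).re
    rw [ContinuousLinearMap.star_eq_adjoint, ContinuousLinearMap.adjoint_inner_right]
    exact inner_self_nonneg (𝕜 := ℂ)
  · show (inner ℂ ξ (Φ (toC 1) ξ)).re = 1
    have : toC 1 = 1 := by ext p; simp
    rw [this, map_one]
    show (inner ℂ ξ ξ).re = 1
    rw [inner_self_eq_norm_sq_to_K, hξ]
    simp
  · intro x
    show (inner ℂ ξ (Φ (toC (rechar x)) ξ)).re = _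
    rw [toC_rechar, map_smul, map_add, map_star, hΦ]
    set T : H →L[ℂ] H := (π (ι x) : H →L[ℂ] H) with hT
    have h1 : (inner ℂ ξ ((star T) ξ)) = conj (inner ℂ ξ (T ξ)) := by
      rw [ContinuousLinearMap.star_eq_adjoint, ContinuousLinearMap.adjoint_inner_right,
        inner_conj_symm]
    rw [_root_.smul_apply, _root_.add_apply, inner_smul_right, inner_add_right, h1]
    rw [Complex.add_conj]
    have : (1 / 2 : ℂ) * ((2 * (inner ℂ ξ (T ξ)).re : ℝ) : ℂ) = (((inner ℂ ξ (T ξ)).re : ℝ) : ℂ) := by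
      push_cast
      ring
    rw [this, Complex.ofReal_re]
  · intro g A hA f
    show |(inner ℂ ξ (Φ (toC (f.comp (dualMap A))) ξ)).re - (inner ℂ ξ (Φ (toC f) ξ)).re| ≤ _
    have hcomp : toC (f.comp (dualMap A)) = (toC f).comp (dualMap A) := by ext p; rfl
    -- equivariance
    have heq : Φ.comp (ContinuousMap.compStarAlgHom' ℂ ℂ (dualMap A)) =
        (conjHom (π g)).comp Φ := by
      apply joint_unique
      · show Φ (zc1.comp (dualMap A)) = conjHom (π g) (Φ zc1)
        have h3 : zc1.comp (dualMap A) = ech (A *ᵥ Pi.single 0 1) := by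
          ext p
          simp [zc1, dualMap, ech]
        rw [h3, hΦ, ← hA, map_mul, map_mul, map_inv, conjHom_apply, hΦ1]
        rfl
      · show Φ (zc2.comp (dualMap A)) = conjHom (π g) (Φ zc2)
        have h3 : zc2.comp (dualMap A) = ech (A *ᵥ Pi.single 1 1) := by
          ext p
          simp [zc2, dualMap, ech]
        rw [h3, hΦ, ← hA, map_mul, map_mul, map_inv, conjHom_apply, hΦ2]
        rfl
    have h4 : Φ ((toC f).comp (dualMap A)) = (π g : H →L[ℂ] H) * Φ (toC f) *
        star (π g : H →L[ℂ] H) := DFunLike.congr_fun heq (toC f)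
    rw [hcomp, h4]
    set T := Φ (toC f) with hT
    set w : H →L[ℂ] H := (π g : H →L[ℂ] H) with hw
    have hw1 : w * star w = 1 := Unitary.mul_star_self_of_mem (π g).2
    have hw2 : star w * w = 1 := Unitary.star_mul_self_of_mem (π g).2
    set η : H := (star w) ξ with hη
    have h5 : inner ℂ ξ ((w * T * star w) ξ) = inner ℂ η (T η) := by
      show inner ℂ ξ (w (T (star w ξ))) = _
      rw [hη, ContinuousLinearMap.star_eq_adjoint, ContinuousLinearMap.adjoint_inner_left]
    have hiso : ∀ y, ‖star w y‖ = ‖y‖ := by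
      intro y
      have h6 : (inner ℂ (star w y) (star w y)) = inner ℂ y y := by
        conv_lhs => rw [ContinuousLinearMap.star_eq_adjoint, ContinuousLinearMap.adjoint_inner_left,
          ← ContinuousLinearMap.star_eq_adjoint]
        have : w (star w y) = (w * star w) y := rfl
        rw [this, hw1]
        rfl
      have h7 := congrArg Complex.re h6
      rw [inner_self_eq_norm_sq_to_K, inner_self_eq_norm_sq_to_K] at h7
      norm_cast at h7
      exact (sq_eq_sq₀ (norm_nonneg _) (norm_nonneg _)).1 h7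
    have hη1 : ‖η‖ = 1 := by rw [hη, hiso, hξ]
    have hdiff : ‖η - ξ‖ = ‖w ξ - ξ‖ := by
      have : η - ξ = star w (ξ - w ξ) := by
        rw [map_sub]
        have h8 : star w (w ξ) = (star w * w) ξ := rfl
        rw [h8, hw2]
        rfl
      rw [this, hiso, norm_sub_rev]
    have hTn : ‖T‖ ≤ ‖f‖ := by
      refine (hnorm _).trans ?_
      rw [ContinuousMap.norm_le _ (norm_nonneg _)]
      intro p
      rw [toC_apply, Complex.norm_real]
      exact f.norm_coe_le_norm p
    rw [h5, ← Complex.sub_re]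
    refine (Complex.abs_re_le_norm _).trans ?_
    have h9 : inner ℂ η (T η) - inner ℂ ξ (T ξ) = inner ℂ (η - ξ) (T η) + inner ℂ ξ (T (η - ξ)) := by
      rw [inner_sub_left, map_sub, inner_sub_right]
      ring
    rw [h9]
    refine (norm_add_le _ _).trans ?_
    have h10 : ‖(inner ℂ (η - ξ) (T η) : ℂ)‖ ≤ ‖f‖ * ‖η - ξ‖ := by
      refine (norm_inner_le_norm _ _).trans ?_
      have := (T.le_opNorm η)
      rw [hη1, mul_one] at this
      have h11 := this.trans hTn
      nlinarith [norm_nonneg (η - ξ)]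
    have h12 : ‖(inner ℂ ξ (T (η - ξ)) : ℂ)‖ ≤ ‖f‖ * ‖η - ξ‖ := by
      refine (norm_inner_le_norm _ _).trans ?_
      rw [hξ, one_mul]
      refine (T.le_opNorm _).trans ?_
      gcongr
    rw [← hdiff]
    linarith

end Main

end Pool.Agent.Helper54.HG
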