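import Pool.Agent.Helper42.Haag.Defs

set_option autoImplicit false

set_option linter.unusedSimpArgs false

/-!
# AA: a Haagerup subgroup of `SL_3(ℤ)` containing block `SL_2(ℤ)` is contained in block `GL_2(ℤ)`
-/

namespace Pool.Agent.Helper54.HG

open Matrix Pool.Agent.Helper42 Pool.Agent.Helper42.Haag

/-- the statement of the hyperbolic pair theorem (`not_haagerup_of_hyperbolic`) -/
def H2S : Prop :=
  ∀ {G : Type} [Group G] (ι : (Fin 2 → ℤ) → G), (∀ x y, ι (x + y) = ι x * ι y) →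
    Function.Injective ι → ∀ (a b : G) (A B : Matrix (Fin 2) (Fin 2) ℤ),
    (∀ x, a * ι x * a⁻¹ = ι (A *ᵥ x)) → (∀ x, b * ι x * b⁻¹ = ι (B *ᵥ x)) →
    A.det = 1 → 2 < |A.trace| → IsUnit B.det → B * A ≠ A * B → A * B * A ≠ B → ¬ Haagerup G

namespace AA

/-- a family of translations, stable under three matrices -/
theorem key (H2 : H2S) (K : Subgroup SL3) (τ : (Fin 2 → ℤ) → SL3)
    (hadd : ∀ x y, τ (x + y) = τ x * τ y) (hinj : Function.Injective τ)
    (sA sB sJ : SL3) (hsA : sA ∈ K) (hsB : sB ∈ K) (hsJ : sJ ∈ K)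
    (hA : ∀ x, sA * τ x = τ (!![2, 1; 1, 1] *ᵥ x) * sA)
    (hB : ∀ x, sB * τ x = τ (!![1, 1; 0, 1] *ᵥ x) * sB)
    (hJ : ∀ x, sJ * τ x = τ (!![0, -1; 1, 0] *ᵥ x) * sJ)
    (x : Fin 2 → ℤ) (hx : x ≠ 0) (hxK : τ x ∈ K) : ¬ Haagerup K := by
  have h0 : τ 0 = 1 := by
    have := hadd 0 0
    rw [add_zero] at this
    exact (mul_left_cancel ((mul_one (τ 0)).trans this)).symm
  have hneg : ∀ y, τ (-y) = (τ y)⁻¹ := by
    intro y
    have := hadd (-y) y
    rw [neg_add_cancel, h0] at this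
    exact eq_inv_of_mul_eq_one_left this.symm
  let L : AddSubgroup (Fin 2 → ℤ) :=
    { carrier := {y | τ y ∈ K}
      zero_mem' := by
        show τ 0 ∈ K
        rw [h0]; exact K.one_mem
      add_mem' := by
        intro a b (ha : τ a ∈ K) (hb : τ b ∈ K)
        show τ (a + b) ∈ K
        rw [hadd]; exact K.mul_mem ha hb
      neg_mem' := by
        intro a (ha : τ a ∈ K)
        show τ (-a) ∈ K
        rw [hneg]; exact K.inv_mem ha }
  have hstab : ∀ (s : SL3) (M : Matrix (Fin 2) (Fin 2) ℤ), s ∈ K →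
      (∀ x, s * τ x = τ (M *ᵥ x) * s) → ∀ y ∈ L, M *ᵥ y ∈ L := by
    intro s M hs hM y (hy : τ y ∈ K)
    show τ (M *ᵥ y) ∈ K
    have : τ (M *ᵥ y) = s * τ y * s⁻¹ := by rw [hM, mul_inv_cancel_right]
    rw [this]
    exact K.mul_mem (K.mul_mem hs hy) (K.inv_mem hs)
  have hxL : x ∈ L := hxK
  have hy : ∃ y : ℤ, y ≠ 0 ∧ (![y, 0] : Fin 2 → ℤ) ∈ L := by
    by_cases hb : x 1 = 0
    · refine ⟨x 0, ?_, ?_⟩
      · intro h
        apply hx
        ext i
        fin_cases i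
        · exact h
        · exact hb
      · have : (![x 0, 0] : Fin 2 → ℤ) = x := by
          ext i
          fin_cases i
          · rfl
          · exact hb.symm
        rw [this]
        exact hxL
    · refine ⟨x 1, hb, ?_⟩
      have h1 := L.sub_mem (hstab sB _ hsB hB x hxL) hxL
      have : (!![1, 1; 0, 1] *ᵥ x - x : Fin 2 → ℤ) = ![x 1, 0] := by
        ext i
        fin_cases i
        · simp [Matrix.mulVec, dotProduct, Fin.sum_univ_two]
        · simp [Matrix.mulVec, dotProduct, Fin.sum_univ_two]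
      rwa [this] at h1
  obtain ⟨y, hy0, hyL⟩ := hy
  have hyL' : (![0, y] : Fin 2 → ℤ) ∈ L := by
    have h1 := hstab sJ _ hsJ hJ _ hyL
    have : (!![0, -1; 1, 0] *ᵥ ![y, 0] : Fin 2 → ℤ) = ![0, y] := by
      ext i
      fin_cases i
      · simp [Matrix.mulVec, dotProduct, Fin.sum_univ_two]
      · simp [Matrix.mulVec, dotProduct, Fin.sum_univ_two]
    rwa [this] at h1
  have hall : ∀ x : Fin 2 → ℤ, y • x ∈ L := by
    intro x
    have : y • x = x 0 • (![y, 0] : Fin 2 → ℤ) + x 1 • (![0, y] : Fin 2 → ℤ) := by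
      ext i
      fin_cases i <;> simp [mul_comm]
    rw [this]
    exact L.add_mem (L.zsmul_mem hyL _) (L.zsmul_mem hyL' _)
  have hconj : ∀ (s : SL3) (M : Matrix (Fin 2) (Fin 2) ℤ) (hs : s ∈ K),
      (∀ x, s * τ x = τ (M *ᵥ x) * s) → ∀ x, (⟨s, hs⟩ : K) * ⟨τ (y • x), hall x⟩ * (⟨s, hs⟩ : K)⁻¹ =
        ⟨τ (y • (M *ᵥ x)), hall _⟩ := by
    intro s M hs hM x
    apply Subtype.ext
    show s * τ (y • x) * s⁻¹ = τ (y • (M *ᵥ x))
    rw [hM, mul_inv_cancel_right, Matrix.mulVec_smul]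
  refine H2 (G := K) (fun x => ⟨τ (y • x), hall x⟩) ?_ ?_ ⟨sA, hsA⟩ ⟨sB, hsB⟩
    !![2, 1; 1, 1] !![1, 1; 0, 1] (hconj sA _ hsA hA) (hconj sB _ hsB hB) ?_ ?_ ?_ ?_ ?_
  · intro a b
    apply Subtype.ext
    show τ (y • (a + b)) = τ (y • a) * τ (y • b)
    rw [smul_add, hadd]
  · intro a b h
    have h1 : τ (y • a) = τ (y • b) := congrArg Subtype.val h
    have h2 := hinj h1
    ext i
    have h3 := congrFun h2 i
    simp only [Pi.smul_apply, smul_eq_mul] at h3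
    exact mul_left_cancel₀ hy0 h3
  · simp [Matrix.det_fin_two]
  · simp [Matrix.trace_fin_two]
  · simp [Matrix.det_fin_two]
  · intro h
    have := congrFun (congrFun h 0) 0
    simp at this
  · intro h
    have := congrFun (congrFun h 0) 0
    simp at this

/-- row translation -/
def rtrans (a b : ℤ) : SL3 := ⟨!![1, 0, 0; 0, 1, 0; a, b, 1], by simp [Matrix.det_fin_three]⟩

/-- block embedding of a matrix of determinant one -/
def bl (a b c d : ℤ) (h : a * d - b * c = 1) : SL3 :=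
  ⟨!![a, b, 0; c, d, 0; 0, 0, 1], by simp [Matrix.det_fin_three]; linarith⟩

theorem bl_mem (a b c d : ℤ) (h : a * d - b * c = 1) : bl a b c d h ∈ blockSL2 := by
  refine ⟨rfl, rfl, rfl, rfl, rfl⟩

theorem coe_trans (a b : ℤ) : (Haag.trans a b : Matrix (Fin 3) (Fin 3) ℤ) =
    !![1, 0, a; 0, 1, b; 0, 0, 1] := rfl

theorem coe_rtrans (a b : ℤ) : (rtrans a b : Matrix (Fin 3) (Fin 3) ℤ) =
    !![1, 0, 0; 0, 1, 0; a, b, 1] := rfl

theorem coe_bl (a b c d : ℤ) (h : a * d - b * c = 1) :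
    (bl a b c d h : Matrix (Fin 3) (Fin 3) ℤ) = !![a, b, 0; c, d, 0; 0, 0, 1] := rfl

theorem trans_not (H2 : H2S) (K : Subgroup SL3) (hS : blockSL2 ≤ K) (a b : ℤ)
    (hab : ¬ (a = 0 ∧ b = 0)) (h : Haag.trans a b ∈ K) : ¬ Haagerup K := by
  refine key H2 K (fun x => Haag.trans (x 0) (x 1)) ?_ ?_ (bl 2 1 1 1 (by norm_num))
    (bl 1 1 0 1 (by norm_num)) (bl 0 (-1) 1 0 (by norm_num)) (hS (bl_mem ..)) (hS (bl_mem ..))
    (hS (bl_mem ..)) ?_ ?_ ?_ ![a, b] ?_ h
  · intro x y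
    apply Subtype.ext
    rw [Matrix.SpecialLinearGroup.coe_mul, coe_trans, coe_trans, coe_trans]
    ext i j
    fin_cases i <;> fin_cases j <;> simp [Matrix.mul_apply, Fin.sum_univ_three, add_comm]
  · intro x y hxy
    have h0 : (Haag.trans (x 0) (x 1)) 0 2 = (Haag.trans (y 0) (y 1)) 0 2 := by
      rw [show Haag.trans (x 0) (x 1) = Haag.trans (y 0) (y 1) from hxy]
    have h1 : (Haag.trans (x 0) (x 1)) 1 2 = (Haag.trans (y 0) (y 1)) 1 2 := by
      rw [show Haag.trans (x 0) (x 1) = Haag.trans (y 0) (y 1) from hxy]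
    ext i
    fin_cases i
    · exact h0
    · exact h1
  · intro x
    apply Subtype.ext
    rw [Matrix.SpecialLinearGroup.coe_mul, Matrix.SpecialLinearGroup.coe_mul, coe_trans, coe_trans,
      coe_bl]
    ext i j
    fin_cases i <;> fin_cases j <;>
      simp [Matrix.mul_apply, Fin.sum_univ_three, Matrix.mulVec, dotProduct, Fin.sum_univ_two]
  · intro x
    apply Subtype.ext
    rw [Matrix.SpecialLinearGroup.coe_mul, Matrix.SpecialLinearGroup.coe_mul, coe_trans, coe_trans,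
      coe_bl]
    ext i j
    fin_cases i <;> fin_cases j <;>
      simp [Matrix.mul_apply, Fin.sum_univ_three, Matrix.mulVec, dotProduct, Fin.sum_univ_two]
  · intro x
    apply Subtype.ext
    rw [Matrix.SpecialLinearGroup.coe_mul, Matrix.SpecialLinearGroup.coe_mul, coe_trans, coe_trans,
      coe_bl]
    ext i j
    fin_cases i <;> fin_cases j <;>
      simp [Matrix.mul_apply, Fin.sum_univ_three, Matrix.mulVec, dotProduct, Fin.sum_univ_two]
  · intro h
    exact hab ⟨congrFun h 0, congrFun h 1⟩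

theorem rtrans_not (H2 : H2S) (K : Subgroup SL3) (hS : blockSL2 ≤ K) (a b : ℤ)
    (hab : ¬ (a = 0 ∧ b = 0)) (h : rtrans a b ∈ K) : ¬ Haagerup K := by
  refine key H2 K (fun x => rtrans (x 0) (x 1)) ?_ ?_ (bl 1 (-1) (-1) 2 (by norm_num))
    (bl 1 0 (-1) 1 (by norm_num)) (bl 0 (-1) 1 0 (by norm_num)) (hS (bl_mem ..)) (hS (bl_mem ..))
    (hS (bl_mem ..)) ?_ ?_ ?_ ![a, b] ?_ h
  · intro x y
    apply Subtype.ext
    rw [Matrix.SpecialLinearGroup.coe_mul, coe_rtrans, coe_rtrans, coe_rtrans]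
    ext i j
    fin_cases i <;> fin_cases j <;> simp [Matrix.mul_apply, Fin.sum_univ_three, add_comm]
  · intro x y hxy
    have h0 : (rtrans (x 0) (x 1)) 2 0 = (rtrans (y 0) (y 1)) 2 0 := by
      rw [show rtrans (x 0) (x 1) = rtrans (y 0) (y 1) from hxy]
    have h1 : (rtrans (x 0) (x 1)) 2 1 = (rtrans (y 0) (y 1)) 2 1 := by
      rw [show rtrans (x 0) (x 1) = rtrans (y 0) (y 1) from hxy]
    ext i
    fin_cases i
    · exact h0
    · exact h1
  · intro x
    apply Subtype.ext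
    rw [Matrix.SpecialLinearGroup.coe_mul, Matrix.SpecialLinearGroup.coe_mul, coe_rtrans,
      coe_rtrans, coe_bl]
    ext i j
    fin_cases i <;> fin_cases j <;>
      simp [Matrix.mul_apply, Fin.sum_univ_three, Matrix.mulVec, dotProduct, Fin.sum_univ_two] <;>
      ring
  · intro x
    apply Subtype.ext
    rw [Matrix.SpecialLinearGroup.coe_mul, Matrix.SpecialLinearGroup.coe_mul, coe_rtrans,
      coe_rtrans, coe_bl]
    ext i j
    fin_cases i <;> fin_cases j <;>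
      simp [Matrix.mul_apply, Fin.sum_univ_three, Matrix.mulVec, dotProduct, Fin.sum_univ_two]
  · intro x
    apply Subtype.ext
    rw [Matrix.SpecialLinearGroup.coe_mul, Matrix.SpecialLinearGroup.coe_mul, coe_rtrans,
      coe_rtrans, coe_bl]
    ext i j
    fin_cases i <;> fin_cases j <;>
      simp [Matrix.mul_apply, Fin.sum_univ_three, Matrix.mulVec, dotProduct, Fin.sum_univ_two]
  · intro h
    exact hab ⟨congrFun h 0, congrFun h 1⟩

theorem det3 (g : SL3) : g 0 0 * g 1 1 * g 2 2 - g 0 0 * g 1 2 * g 2 1 - g 0 1 * g 1 0 * g 2 2 +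
    g 0 1 * g 1 2 * g 2 0 + g 0 2 * g 1 0 * g 2 1 - g 0 2 * g 1 1 * g 2 0 = 1 := by
  have hd := g.2
  rw [Matrix.det_fin_three] at hd
  exact hd

/-- the central involution of the block -/
def zz : SL3 := bl (-1) 0 0 (-1) (by norm_num)

theorem coe_zz : (zz : Matrix (Fin 3) (Fin 3) ℤ) = !![-1, 0, 0; 0, -1, 0; 0, 0, 1] := rfl

theorem zz_mem : zz ∈ blockSL2 := bl_mem ..

theorem case1 (H2 : H2S) (K : Subgroup SL3) (hS : blockSL2 ≤ K) (g : SL3) (hg : g ∈ K)
    (h0 : g 2 0 = 0) (h1 : g 2 1 = 0) (h : ¬ (g 0 2 = 0 ∧ g 1 2 = 0)) : ¬ Haagerup K := by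
  have hd := det3 g
  rw [h0, h1] at hd
  have hu : IsUnit (g 2 2) := IsUnit.of_mul_eq_one (g 0 0 * g 1 1 - g 0 1 * g 1 0) (by linarith)
  have hsq : g 2 2 * g 2 2 = 1 := by
    rcases Int.isUnit_iff.1 hu with h | h <;> rw [h] <;> norm_num
  have hid : g * zz = Haag.trans (2 * g 2 2 * g 0 2) (2 * g 2 2 * g 1 2) * zz * g := by
    apply Subtype.ext
    rw [Matrix.SpecialLinearGroup.coe_mul, Matrix.SpecialLinearGroup.coe_mul,
      Matrix.SpecialLinearGroup.coe_mul, coe_trans, coe_zz]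
    ext i j
    fin_cases i <;> fin_cases j <;>
      simp [Matrix.mul_apply, Fin.sum_univ_three, h0, h1]
    · linear_combination (-2 * g 0 2) * hsq
    · linear_combination (-2 * g 1 2) * hsq
  have hmem : Haag.trans (2 * g 2 2 * g 0 2) (2 * g 2 2 * g 1 2) ∈ K := by
    have : Haag.trans (2 * g 2 2 * g 0 2) (2 * g 2 2 * g 1 2) = g * zz * g⁻¹ * zz⁻¹ := by
      rw [hid]
      group
    rw [this]
    have hz := hS zz_mem
    exact K.mul_mem (K.mul_mem (K.mul_mem hg hz) (K.inv_mem hg)) (K.inv_mem hz)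
  refine trans_not H2 K hS _ _ ?_ hmem
  rintro ⟨h2, h3⟩
  apply h
  have h22 : g 2 2 ≠ 0 := by
    intro h4
    rw [h4] at hsq
    simp at hsq
  constructor
  · simpa [h22] using h2
  · simpa [h22] using h3

theorem case2 (H2 : H2S) (K : Subgroup SL3) (hS : blockSL2 ≤ K) (g : SL3) (hg : g ∈ K)
    (h0 : g 0 2 = 0) (h1 : g 1 2 = 0) (h : ¬ (g 2 0 = 0 ∧ g 2 1 = 0)) : ¬ Haagerup K := by
  have hd := det3 g
  rw [h0, h1] at hd
  have hu : IsUnit (g 2 2) := IsUnit.of_mul_eq_one (g 0 0 * g 1 1 - g 0 1 * g 1 0) (by linarith)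
  have hsq : g 2 2 * g 2 2 = 1 := by
    rcases Int.isUnit_iff.1 hu with h | h <;> rw [h] <;> norm_num
  have hid : zz * g = g * rtrans (-2 * g 2 2 * g 2 0) (-2 * g 2 2 * g 2 1) * zz := by
    apply Subtype.ext
    rw [Matrix.SpecialLinearGroup.coe_mul, Matrix.SpecialLinearGroup.coe_mul,
      Matrix.SpecialLinearGroup.coe_mul, coe_rtrans, coe_zz]
    ext i j
    fin_cases i <;> fin_cases j <;>
      simp [Matrix.mul_apply, Fin.sum_univ_three, h0, h1]
    · linear_combination (-2 * g 2 0) * hsq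
    · linear_combination (-2 * g 2 1) * hsq
  have hmem : rtrans (-2 * g 2 2 * g 2 0) (-2 * g 2 2 * g 2 1) ∈ K := by
    have : rtrans (-2 * g 2 2 * g 2 0) (-2 * g 2 2 * g 2 1) = g⁻¹ * (zz * g) * zz⁻¹ := by
      rw [hid]
      group
    rw [this]
    have hz := hS zz_mem
    exact K.mul_mem (K.mul_mem (K.inv_mem hg) (K.mul_mem hz hg)) (K.inv_mem hz)
  refine rtrans_not H2 K hS _ _ ?_ hmem
  rintro ⟨h2, h3⟩
  apply h
  have h22 : g 2 2 ≠ 0 := by
    intro h4
    rw [h4] at hsq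
    simp at hsq
  constructor
  · simpa [h22] using h2
  · simpa [h22] using h3

theorem case3a (H2 : H2S) (K : Subgroup SL3) (hS : blockSL2 ≤ K) (g : SL3) (hg : g ∈ K)
    (h : (g 1 0 * g 2 1 - g 1 1 * g 2 0) * g 0 2 - (g 0 0 * g 2 1 - g 0 1 * g 2 0) * g 1 2 ≠ 0) :
    ¬ Haagerup K := by
  have hd := det3 g
  set v0 := g 0 0 * g 2 1 - g 0 1 * g 2 0 with hv0
  set v1 := g 1 0 * g 2 1 - g 1 1 * g 2 0 with hv1
  set D := v1 * g 0 2 - v0 * g 1 2 with hD
  have e1 : (1 + g 2 1 * g 2 0) * (1 - g 2 1 * g 2 0) - g 2 1 ^ 2 * (-g 2 0 ^ 2) = 1 := by ring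
  have e2 : (1 - g 2 2 * v0 * v1) * (1 + g 2 2 * v0 * v1) - (g 2 2 * v0 ^ 2) * (-g 2 2 * v1 ^ 2) = 1 := by
    ring
  have hid : g * bl _ _ _ _ e1 = Haag.trans (D * v0) (D * v1) * bl _ _ _ _ e2 * g := by
    apply Subtype.ext
    rw [Matrix.SpecialLinearGroup.coe_mul, Matrix.SpecialLinearGroup.coe_mul,
      Matrix.SpecialLinearGroup.coe_mul, coe_trans, coe_bl, coe_bl]
    ext i j
    fin_cases i <;> fin_cases j <;>
      simp [Matrix.mul_apply, Fin.sum_univ_three]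
    · rw [hD, hv0, hv1]
      linear_combination (-(g 0 0 * g 2 1 - g 0 1 * g 2 0) * g 2 0) * hd
    · rw [hD, hv0, hv1]
      linear_combination (-(g 0 0 * g 2 1 - g 0 1 * g 2 0) * g 2 1) * hd
    · rw [hD, hv0, hv1]
      ring
    · rw [hD, hv0, hv1]
      linear_combination (-(g 1 0 * g 2 1 - g 1 1 * g 2 0) * g 2 0) * hd
    · rw [hD, hv0, hv1]
      linear_combination (-(g 1 0 * g 2 1 - g 1 1 * g 2 0) * g 2 1) * hd
    · rw [hD, hv0, hv1]
      ring
    · ring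
    · ring
  have hmem : Haag.trans (D * v0) (D * v1) ∈ K := by
    have : Haag.trans (D * v0) (D * v1) = g * bl _ _ _ _ e1 * g⁻¹ * (bl _ _ _ _ e2)⁻¹ := by
      rw [hid]
      group
    rw [this]
    exact K.mul_mem (K.mul_mem (K.mul_mem hg (hS (bl_mem ..))) (K.inv_mem hg))
      (K.inv_mem (hS (bl_mem ..)))
  refine trans_not H2 K hS _ _ ?_ hmem
  rintro ⟨h2, h3⟩
  have h4 : v0 = 0 := by simpa [h] using h2
  have h5 : v1 = 0 := by simpa [h] using h3
  apply h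
  rw [hD, h4, h5]
  ring

theorem case3b (H2 : H2S) (K : Subgroup SL3) (hS : blockSL2 ≤ K) (g : SL3) (hg : g ∈ K)
    (h : (g 1 0 * g 2 1 - g 1 1 * g 2 0) * g 0 2 - (g 0 0 * g 2 1 - g 0 1 * g 2 0) * g 1 2 = 0)
    (hr : ¬ (g 2 0 = 0 ∧ g 2 1 = 0)) (hc : ¬ (g 0 2 = 0 ∧ g 1 2 = 0)) :
    ¬ Haagerup K := by
  have hd := det3 g
  have hJm : bl 0 (-1) 1 0 (by norm_num) ∈ K := hS (bl_mem ..)
  set J : SL3 := bl 0 (-1) 1 0 (by norm_num) with hJ
  have hk : g * J * g⁻¹ ∈ K := K.mul_mem (K.mul_mem hg hJm) (K.inv_mem hg)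
  set k : SL3 := g * J * g⁻¹ with hkdef
  -- third column of the inverse
  set c0 := g 0 1 * g 1 2 - g 0 2 * g 1 1 with hc0
  set c1 := g 0 2 * g 1 0 - g 0 0 * g 1 2 with hc1
  set c2 := g 0 0 * g 1 1 - g 0 1 * g 1 0 with hc2
  have i0 : g⁻¹ 0 2 = c0 := by
    rw [hc0]
    simp [Matrix.SpecialLinearGroup.coe_inv, Matrix.adjugate_fin_three]
  have i1 : g⁻¹ 1 2 = c1 := by
    rw [hc1]
    simp [Matrix.SpecialLinearGroup.coe_inv, Matrix.adjugate_fin_three]
    ring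
  have i2 : g⁻¹ 2 2 = c2 := by
    rw [hc2]
    simp [Matrix.SpecialLinearGroup.coe_inv, Matrix.adjugate_fin_three]
  have hc22 : g 2 2 * c2 = 1 := by
    rw [hc2]
    linear_combination hd - h
  have hrc : g 2 0 * c0 + g 2 1 * c1 = 0 := by
    rw [hc0, hc1]
    linear_combination h
  set δ := g 2 0 * c1 - g 2 1 * c0 with hδ
  have k22 : k 2 2 = 1 - δ := by
    rw [hkdef, Matrix.SpecialLinearGroup.coe_mul, Matrix.SpecialLinearGroup.coe_mul, hJ, coe_bl]
    simp only [Matrix.mul_apply, Fin.sum_univ_three]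
    rw [i0, i1, i2]
    simp
    linear_combination hc22
  have ki22 : k⁻¹ 2 2 = 1 + δ := by
    have h1 : k⁻¹ = g * J⁻¹ * g⁻¹ := by
      rw [hkdef]
      group
    have h2 : (J⁻¹ : SL3) = bl 0 1 (-1) 0 (by norm_num) := by
      rw [inv_eq_iff_mul_eq_one]
      apply Subtype.ext
      rw [Matrix.SpecialLinearGroup.coe_mul, hJ, coe_bl, coe_bl]
      ext i j
      fin_cases i <;> fin_cases j <;> simp
    rw [h1, h2, Matrix.SpecialLinearGroup.coe_mul, Matrix.SpecialLinearGroup.coe_mul, coe_bl]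
    simp only [Matrix.mul_apply, Fin.sum_univ_three]
    rw [i0, i1, i2]
    simp
    linear_combination hc22
  have ki22' : k⁻¹ 2 2 = k 0 0 * k 1 1 - k 0 1 * k 1 0 := by
    simp [Matrix.SpecialLinearGroup.coe_inv, Matrix.adjugate_fin_three]
  have hδ0 : δ ≠ 0 := by
    intro h1
    -- `c' = 0`
    have h2 : (g 2 0 ^ 2 + g 2 1 ^ 2) * c0 = 0 := by
      linear_combination (g 2 0) * hrc - (g 2 1) * (hδ.symm.trans h1)
    have h3 : (g 2 0 ^ 2 + g 2 1 ^ 2) * c1 = 0 := by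
      linear_combination (g 2 1) * hrc + (g 2 0) * (hδ.symm.trans h1)
    have h4 : g 2 0 ^ 2 + g 2 1 ^ 2 ≠ 0 := by
      intro h5
      apply hr
      have h50 : g 2 0 ^ 2 = 0 := by linarith [sq_nonneg (g 2 0), sq_nonneg (g 2 1)]
      have h51 : g 2 1 ^ 2 = 0 := by linarith [sq_nonneg (g 2 0), sq_nonneg (g 2 1)]
      exact ⟨pow_eq_zero_iff (two_ne_zero) |>.1 h50, pow_eq_zero_iff (two_ne_zero) |>.1 h51⟩
    have h5 : c0 = 0 := by simpa [h4] using h2
    have h6 : c1 = 0 := by simpa [h4] using h3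
    have hc2' : c2 ≠ 0 := by
      intro h7
      rw [h7] at hc22
      simp at hc22
    apply hc
    constructor
    · have : g 0 2 * c2 = 0 := by
        have : g 0 0 * c0 + g 0 1 * c1 + g 0 2 * c2 = 0 := by
          rw [hc0, hc1, hc2]; ring
        rw [h5, h6] at this
        linarith
      simpa [hc2'] using this
    · have : g 1 2 * c2 = 0 := by
        have : g 1 0 * c0 + g 1 1 * c1 + g 1 2 * c2 = 0 := by
          rw [hc0, hc1, hc2]; ring
        rw [h5, h6] at this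
        linarith
      simpa [hc2'] using this
  have hdk := det3 k
  refine case3a H2 K hS k hk ?_
  have hval : (k 1 0 * k 2 1 - k 1 1 * k 2 0) * k 0 2 - (k 0 0 * k 2 1 - k 0 1 * k 2 0) * k 1 2
      = δ ^ 2 := by
    have h1 : (k 1 0 * k 2 1 - k 1 1 * k 2 0) * k 0 2 - (k 0 0 * k 2 1 - k 0 1 * k 2 0) * k 1 2
      = 1 - k 2 2 * (k 0 0 * k 1 1 - k 0 1 * k 1 0) := by linear_combination hdk
    rw [h1, ← ki22', ki22, k22]
    ring
  rw [hval]
  exact pow_ne_zero 2 hδ0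

end AA

open AA in
/-- a Haagerup subgroup containing block `SL_2(ℤ)` is contained in block `GL_2(ℤ)`;
`H2` is the hyperbolic pair theorem. -/
theorem le_blockGL2_of (H2 : H2S) (K : Subgroup SL3) (hS : blockSL2 ≤ K) (hK : Haagerup K) :
    K ≤ blockGL2 := by
  intro g hg
  by_contra hng
  have hng' : ¬ (g 0 2 = 0 ∧ g 1 2 = 0 ∧ g 2 0 = 0 ∧ g 2 1 = 0) := hng
  by_cases hr : g 2 0 = 0 ∧ g 2 1 = 0
  · exact case1 H2 K hS g hg hr.1 hr.2 (fun h => hng' ⟨h.1, h.2, hr.1, hr.2⟩) hK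
  · by_cases hc : g 0 2 = 0 ∧ g 1 2 = 0
    · exact case2 H2 K hS g hg hc.1 hc.2 hr hK
    · by_cases hD : (g 1 0 * g 2 1 - g 1 1 * g 2 0) * g 0 2 -
          (g 0 0 * g 2 1 - g 0 1 * g 2 0) * g 1 2 = 0
      · exact case3b H2 K hS g hg hD hr hc hK
      · exact case3a H2 K hS g hg hD hK

end Pool.Agent.Helper54.HG
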