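import Pool.Agent.Helper42.Haag.Defs

set_option autoImplicit false

set_option linter.unusedSimpArgs false

/-!
# G: the block `GL_2(ℤ)` has the Haagerup property
-/

namespace Pool.Agent.Helper54.HG

open Matrix Pool.Agent.Helper42.Haag

namespace G

/-- `⟨u,w⟩^n` is a positive definite kernel -/
theorem pow_psd {ι : Type*} (s : Finset ι) (c u v : ι → ℝ) (n : ℕ) :
    0 ≤ ∑ g ∈ s, ∑ k ∈ s, c g * c k * (u g * u k + v g * v k) ^ n := by
  have h : ∑ g ∈ s, ∑ k ∈ s, c g * c k * (u g * u k + v g * v k) ^ n =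
      ∑ m ∈ Finset.range (n + 1), (n.choose m : ℝ) * (∑ g ∈ s, c g * (u g ^ m * v g ^ (n - m))) ^ 2 := by
    have h1 : ∀ m, (∑ g ∈ s, c g * (u g ^ m * v g ^ (n - m))) ^ 2 =
        ∑ g ∈ s, ∑ k ∈ s, (c g * (u g ^ m * v g ^ (n - m))) * (c k * (u k ^ m * v k ^ (n - m))) := by
      intro m
      rw [sq, Finset.sum_mul_sum]
    simp_rw [h1, Finset.mul_sum]
    symm
    rw [Finset.sum_comm]
    refine Finset.sum_congr rfl fun g _ => ?_
    rw [Finset.sum_comm]
    refine Finset.sum_congr rfl fun k _ => ?_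
    rw [add_pow, Finset.mul_sum]
    refine Finset.sum_congr rfl fun m _ => ?_
    rw [mul_pow, mul_pow]
    ring
  rw [h]
  exact Finset.sum_nonneg fun m _ => mul_nonneg (Nat.cast_nonneg _) (sq_nonneg _)

/-- `-log (1 - ⟨u,w⟩)` is a positive definite kernel on the open unit disc -/
theorem log_psd {ι : Type*} (s : Finset ι) (c u v : ι → ℝ) (huv : ∀ g, u g ^ 2 + v g ^ 2 < 1) :
    0 ≤ ∑ g ∈ s, ∑ k ∈ s, c g * c k * (-Real.log (1 - (u g * u k + v g * v k))) := by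
  have habs : ∀ g k, |u g * u k + v g * v k| < 1 := by
    intro g k
    rw [abs_lt]
    constructor <;> nlinarith [huv g, huv k, sq_nonneg (u g - u k), sq_nonneg (v g - v k),
      sq_nonneg (u g + u k), sq_nonneg (v g + v k)]
  have hs : HasSum (fun n : ℕ => ∑ g ∈ s, ∑ k ∈ s,
      c g * c k * ((u g * u k + v g * v k) ^ (n + 1) / ((n : ℝ) + 1)))
      (∑ g ∈ s, ∑ k ∈ s, c g * c k * (-Real.log (1 - (u g * u k + v g * v k)))) := by
    refine hasSum_sum fun g _ => hasSum_sum fun k _ => ?_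
    exact (Real.hasSum_pow_div_log_of_abs_lt_one (habs g k)).mul_left _
  refine hs.nonneg fun n => ?_
  have h1 : ∑ g ∈ s, ∑ k ∈ s,
      c g * c k * ((u g * u k + v g * v k) ^ (n + 1) / ((n : ℝ) + 1)) =
      (∑ g ∈ s, ∑ k ∈ s, c g * c k * (u g * u k + v g * v k) ^ (n + 1)) / ((n : ℝ) + 1) := by
    rw [Finset.sum_div]
    refine Finset.sum_congr rfl fun g _ => ?_
    rw [Finset.sum_div]
    refine Finset.sum_congr rfl fun k _ => ?_
    ring
  show 0 ≤ ∑ g ∈ s, ∑ k ∈ s, c g * c k * ((u g * u k + v g * v k) ^ (n + 1) / ((n : ℝ) + 1))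
  rw [h1]
  exact div_nonneg (pow_psd s c u v (n + 1)) (by positivity)

/-- real entries of the upper left block -/
noncomputable def e (g : blockGL2) (i j : Fin 3) : ℝ := ((g : SL3) i j : ℤ)

theorem det_eq (g : blockGL2) :
    (g : SL3) 2 2 * ((g : SL3) 0 0 * (g : SL3) 1 1 - (g : SL3) 0 1 * (g : SL3) 1 0) = 1 := by
  obtain ⟨g, h1, h2, h3, h4⟩ := g
  have hd := g.2
  rw [Matrix.det_fin_three] at hd
  have hd' : (g : SL3) 0 0 * g 1 1 * g 2 2 - g 0 0 * g 1 2 * g 2 1 - g 0 1 * g 1 0 * g 2 2 +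
    g 0 1 * g 1 2 * g 2 0 + g 0 2 * g 1 0 * g 2 1 - g 0 2 * g 1 1 * g 2 0 = 1 := hd
  rw [h1, h2, h3, h4] at hd'
  show g 2 2 * (g 0 0 * g 1 1 - g 0 1 * g 1 0) = 1
  linarith

theorem sq22 (g : blockGL2) : e g 2 2 ^ 2 = 1 := by
  have h := det_eq g
  have h1 : IsUnit ((g : SL3) 2 2) := IsUnit.of_mul_eq_one _ h
  have h2 : ((g : SL3) 2 2) ^ 2 = 1 := by
    rcases Int.isUnit_iff.1 h1 with h | h <;> rw [h] <;> norm_num
  unfold e
  exact_mod_cast h2

theorem detsq (g : blockGL2) : (e g 0 0 * e g 1 1 - e g 0 1 * e g 1 0) ^ 2 = 1 := by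
  have h := det_eq g
  have h1 : IsUnit ((g : SL3) 0 0 * (g : SL3) 1 1 - (g : SL3) 0 1 * (g : SL3) 1 0) :=
    IsUnit.of_mul_eq_one_right _ h
  have h2 : ((g : SL3) 0 0 * (g : SL3) 1 1 - (g : SL3) 0 1 * (g : SL3) 1 0) ^ 2 = 1 := by
    rcases Int.isUnit_iff.1 h1 with h | h <;> rw [h] <;> norm_num
  unfold e
  exact_mod_cast h2

/-- half the square of the Hilbert-Schmidt norm of the `2 × 2` block -/
noncomputable def hs (g : blockGL2) : ℝ :=
  (e g 0 0 ^ 2 + e g 0 1 ^ 2 + e g 1 0 ^ 2 + e g 1 1 ^ 2) / 2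

noncomputable def x0 (g : blockGL2) : ℝ :=
  (e g 0 0 ^ 2 + e g 0 1 ^ 2 + e g 1 0 ^ 2 + e g 1 1 ^ 2) / 2

noncomputable def x1 (g : blockGL2) : ℝ :=
  (e g 0 0 ^ 2 + e g 0 1 ^ 2 - e g 1 0 ^ 2 - e g 1 1 ^ 2) / 2

noncomputable def x2 (g : blockGL2) : ℝ := e g 0 0 * e g 1 0 + e g 0 1 * e g 1 1

theorem x_quad (g : blockGL2) : x0 g ^ 2 - x1 g ^ 2 - x2 g ^ 2 = 1 := by
  rw [← detsq g]
  unfold x0 x1 x2
  ring

theorem x0_pos (g : blockGL2) : 0 < x0 g := by
  have h := x_quad g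
  have h1 : 0 ≤ x0 g := by unfold x0; positivity
  rcases h1.lt_or_eq with h2 | h2
  · exact h2
  · rw [← h2] at h
    nlinarith [sq_nonneg (x1 g), sq_nonneg (x2 g)]

theorem hs_mul (g k : blockGL2) : hs (g⁻¹ * k) = x0 g * x0 k - x1 g * x1 k - x2 g * x2 k := by
  have h00 : e (g⁻¹ * k) 0 0 = e g 2 2 * (e g 1 1 * e k 0 0 - e g 0 1 * e k 1 0) := by
    obtain ⟨g, h1, h2, h3, h4⟩ := g
    obtain ⟨k, k1, k2, k3, k4⟩ := k
    unfold e
    simp [Matrix.SpecialLinearGroup.coe_inv, Matrix.adjugate_fin_three, Matrix.mul_apply,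
      Fin.sum_univ_three, h1, h2, h3, h4, k1, k2, k3, k4]
    ring
  have h01 : e (g⁻¹ * k) 0 1 = e g 2 2 * (e g 1 1 * e k 0 1 - e g 0 1 * e k 1 1) := by
    obtain ⟨g, h1, h2, h3, h4⟩ := g
    obtain ⟨k, k1, k2, k3, k4⟩ := k
    unfold e
    simp [Matrix.SpecialLinearGroup.coe_inv, Matrix.adjugate_fin_three, Matrix.mul_apply,
      Fin.sum_univ_three, h1, h2, h3, h4, k1, k2, k3, k4]
    ring
  have h10 : e (g⁻¹ * k) 1 0 = e g 2 2 * (e g 0 0 * e k 1 0 - e g 1 0 * e k 0 0) := by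
    obtain ⟨g, h1, h2, h3, h4⟩ := g
    obtain ⟨k, k1, k2, k3, k4⟩ := k
    unfold e
    simp [Matrix.SpecialLinearGroup.coe_inv, Matrix.adjugate_fin_three, Matrix.mul_apply,
      Fin.sum_univ_three, h1, h2, h3, h4, k1, k2, k3, k4]
    ring
  have h11 : e (g⁻¹ * k) 1 1 = e g 2 2 * (e g 0 0 * e k 1 1 - e g 1 0 * e k 0 1) := by
    obtain ⟨g, h1, h2, h3, h4⟩ := g
    obtain ⟨k, k1, k2, k3, k4⟩ := k
    unfold e
    simp [Matrix.SpecialLinearGroup.coe_inv, Matrix.adjugate_fin_three, Matrix.mul_apply,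
      Fin.sum_univ_three, h1, h2, h3, h4, k1, k2, k3, k4]
    ring
  have h := sq22 g
  unfold hs x0 x1 x2
  rw [h00, h01, h10, h11]
  linear_combination (1 / 2 : ℝ) * ((e g 1 1 * e k 0 0 - e g 0 1 * e k 1 0) ^ 2 +
    (e g 1 1 * e k 0 1 - e g 0 1 * e k 1 1) ^ 2 + (e g 0 0 * e k 1 0 - e g 1 0 * e k 0 0) ^ 2 +
    (e g 0 0 * e k 1 1 - e g 1 0 * e k 0 1) ^ 2) * h

end G

open G in
theorem haagerup_blockGL2 : Haagerup blockGL2 := by
  classical
  let u : blockGL2 → ℝ := fun g => x1 g / x0 g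
  let v : blockGL2 → ℝ := fun g => x2 g / x0 g
  have huv : ∀ g, u g ^ 2 + v g ^ 2 < 1 := by
    intro g
    have h0 := x0_pos g
    have hq := x_quad g
    show (x1 g / x0 g) ^ 2 + (x2 g / x0 g) ^ 2 < 1
    rw [div_pow, div_pow, ← add_div, div_lt_one (by positivity)]
    linarith
  have hlog : ∀ g k, Real.log (hs (g⁻¹ * k)) =
      Real.log (x0 g) + Real.log (x0 k) + Real.log (1 - (u g * u k + v g * v k)) := by
    intro g k
    have h0 := x0_pos g
    have h0' := x0_pos k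
    have h1 : hs (g⁻¹ * k) = x0 g * x0 k * (1 - (u g * u k + v g * v k)) := by
      rw [hs_mul]
      show _ = x0 g * x0 k * (1 - (x1 g / x0 g * (x1 k / x0 k) + x2 g / x0 g * (x2 k / x0 k)))
      field_simp
      ring
    have h2 : 0 < 1 - (u g * u k + v g * v k) := by
      nlinarith [huv g, huv k, sq_nonneg (u g - u k), sq_nonneg (v g - v k)]
    rw [h1, Real.log_mul (by positivity) h2.ne', Real.log_mul h0.ne' h0'.ne']
  refine ⟨fun g => Real.log (hs g), ⟨?_, ?_, ?_⟩, ?_⟩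
  · have : hs 1 = 1 := by
      unfold hs e
      simp
    show Real.log (hs 1) = 0
    rw [this, Real.log_one]
  · intro g
    have h1 := hs_mul g 1
    rw [mul_one] at h1
    show Real.log (hs g⁻¹) = Real.log (hs g)
    congr 1
    rw [h1]
    unfold hs x0 x1 x2 e
    simp
  · intro s c hc
    have h1 : ∑ g ∈ s, ∑ k ∈ s, c g * c k * Real.log (hs (g⁻¹ * k)) =
        -(∑ g ∈ s, ∑ k ∈ s, c g * c k * (-Real.log (1 - (u g * u k + v g * v k)))) := by
      have h2 : ∑ g ∈ s, ∑ k ∈ s, c g * c k * Real.log (hs (g⁻¹ * k)) =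
        ∑ g ∈ s, ∑ k ∈ s, c g * c k * Real.log (x0 g) +
        ∑ g ∈ s, ∑ k ∈ s, c g * c k * Real.log (x0 k) +
        ∑ g ∈ s, ∑ k ∈ s, c g * c k * (Real.log (1 - (u g * u k + v g * v k))) := by
        rw [← Finset.sum_add_distrib, ← Finset.sum_add_distrib]
        refine Finset.sum_congr rfl fun g _ => ?_
        rw [← Finset.sum_add_distrib, ← Finset.sum_add_distrib]
        refine Finset.sum_congr rfl fun k _ => ?_
        rw [hlog]
        ring
      have h3 : ∑ g ∈ s, ∑ k ∈ s, c g * c k * Real.log (x0 g) = 0 := by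
        have : ∑ g ∈ s, ∑ k ∈ s, c g * c k * Real.log (x0 g) =
            (∑ g ∈ s, c g * Real.log (x0 g)) * ∑ k ∈ s, c k := by
          rw [Finset.sum_mul_sum]
          exact Finset.sum_congr rfl fun g _ => Finset.sum_congr rfl fun k _ => by ring
        rw [this, hc, mul_zero]
      have h4 : ∑ g ∈ s, ∑ k ∈ s, c g * c k * Real.log (x0 k) = 0 := by
        have : ∑ g ∈ s, ∑ k ∈ s, c g * c k * Real.log (x0 k) =
            (∑ g ∈ s, c g) * ∑ k ∈ s, c k * Real.log (x0 k) := by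
          rw [Finset.sum_mul_sum]
          exact Finset.sum_congr rfl fun g _ => Finset.sum_congr rfl fun k _ => by ring
        rw [this, hc, zero_mul]
      rw [h2, h3, h4, zero_add, zero_add, ← Finset.sum_neg_distrib]
      refine Finset.sum_congr rfl fun g _ => ?_
      rw [← Finset.sum_neg_distrib]
      exact Finset.sum_congr rfl fun k _ => by ring
    show ∑ g ∈ s, ∑ k ∈ s, c g * c k * Real.log (hs (g⁻¹ * k)) ≤ 0
    rw [h1]
    exact neg_nonpos.2 (log_psd s c u v huv)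
  · intro C
    obtain ⟨M, hM⟩ := exists_nat_ge (2 * Real.exp C + 1)
    let f : blockGL2 → Fin 3 → Fin 3 → ℤ := fun g i j => (g : SL3) i j
    have hinj : Function.Injective f := by
      intro g k h
      apply Subtype.ext
      apply Subtype.ext
      exact h
    have hfin : (Set.pi Set.univ fun _ : Fin 3 => Set.pi Set.univ fun _ : Fin 3 =>
        Set.Icc (-(M : ℤ)) M).Finite :=
      Set.Finite.pi fun _ => Set.Finite.pi fun _ => Set.finite_Icc _ _
    refine (hfin.preimage hinj.injOn).subset ?_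
    intro g (hg : Real.log (hs g) ≤ C)
    have hpos : 0 < hs g := x0_pos g
    have h1 : hs g ≤ Real.exp C := (Real.log_le_iff_le_exp hpos).1 hg
    have hM1 : (1 : ℝ) ≤ M := by
      have := Real.exp_pos C
      linarith
    have key : ∀ x : ℤ, ((x : ℝ)) ^ 2 ≤ M → x ∈ Set.Icc (-(M : ℤ)) M := by
      intro x hx
      have h2 : x ^ 2 ≤ (M : ℤ) := by exact_mod_cast hx
      constructor
      · nlinarith
      · nlinarith
    have hent : ∀ x : ℝ, x ^ 2 ≤ 2 * hs g → x ^ 2 ≤ M := fun x hx => by linarith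
    have b00 : (g : SL3) 0 0 ∈ Set.Icc (-(M : ℤ)) M := key _ (hent (e g 0 0) (by
      unfold hs; nlinarith [sq_nonneg (e g 0 0), sq_nonneg (e g 0 1), sq_nonneg (e g 1 0), sq_nonneg (e g 1 1)]))
    have b01 : (g : SL3) 0 1 ∈ Set.Icc (-(M : ℤ)) M := key _ (hent (e g 0 1) (by
      unfold hs; nlinarith [sq_nonneg (e g 0 0), sq_nonneg (e g 0 1), sq_nonneg (e g 1 0), sq_nonneg (e g 1 1)]))
    have b10 : (g : SL3) 1 0 ∈ Set.Icc (-(M : ℤ)) M := key _ (hent (e g 1 0) (by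
      unfold hs; nlinarith [sq_nonneg (e g 0 0), sq_nonneg (e g 0 1), sq_nonneg (e g 1 0), sq_nonneg (e g 1 1)]))
    have b11 : (g : SL3) 1 1 ∈ Set.Icc (-(M : ℤ)) M := key _ (hent (e g 1 1) (by
      unfold hs; nlinarith [sq_nonneg (e g 0 0), sq_nonneg (e g 0 1), sq_nonneg (e g 1 0), sq_nonneg (e g 1 1)]))
    have b22 : (g : SL3) 2 2 ∈ Set.Icc (-(M : ℤ)) M := key _ (by
      have := sq22 g
      unfold e at this
      rw [this]
      exact hM1)
    have b0 : (0 : ℤ) ∈ Set.Icc (-(M : ℤ)) M := ⟨by linarith [Int.natCast_nonneg M], by positivity⟩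
    obtain ⟨g', h1', h2', h3', h4'⟩ := g
    intro i _ j _
    show g' i j ∈ Set.Icc (-(M : ℤ)) M
    fin_cases i <;> fin_cases j
    · exact b00
    · exact b01
    · show g' 0 2 ∈ _; rw [h1']; exact b0
    · exact b10
    · exact b11
    · show g' 1 2 ∈ _; rw [h2']; exact b0
    · show g' 2 0 ∈ _; rw [h3']; exact b0
    · show g' 2 1 ∈ _; rw [h4']; exact b0
    · exact b22

end Pool.Agent.Helper54.HG
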